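import Mathlib
import Pool.Agent.Q203.OrthJoin2

open Pool.Agent.Q203.OrthJoin

namespace Pool.Agent.Results.MP_f32e1d_an.NoPointwiseSup

/-- There are Riesz spaces `E` and `F`, with `F` Archimedean, and orthogonally additive maps
`S, T : E → F` whose join exists among the orthogonally additive maps, such that for some `x` the
set `{S u + T v : x = u ⊔ v}` has no least upper bound in `F`. -/
theorem _root_.Pool.Agent.Results.MP_f32e1d_an.NoPointwiseSup.result :
    ∃ (E : Type) (_ : AddCommGroup E) (_ : Lattice E) (_ : IsOrderedAddMonoid E)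
      (_ : Module ℝ E) (_ : PosSMulMono ℝ E)
      (F : Type) (_ : AddCommGroup F) (_ : Lattice F) (_ : IsOrderedAddMonoid F)
      (_ : Module ℝ F) (_ : PosSMulMono ℝ F),
      (∀ x y : F, (∀ n : ℕ, n • x ≤ y) → x ≤ 0) ∧
      ∃ S T : E → F, OrthAdd S ∧ OrthAdd T ∧ (∃ V : E → F, IsJoin S T V) ∧
        ∃ x : E, ¬ ∃ z : F, IsLUB (Splits S T x) z := by
  refine ⟨Dom, inferInstance, inferInstance, inferInstance, inferInstance, inferInstance,
    C(Tr, ℝ), inferInstance, inferInstance, inferInstance, inferInstance, inferInstance,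
    ?_, op 1, op (-1), op_orth 1, op_orth (-1), ⟨0, join_zero⟩, not_all⟩
  intro x y h t
  by_contra hcon
  push Not at hcon
  have hcon' : 0 < x t := hcon
  obtain ⟨n, hn⟩ := exists_nat_gt (y t / x t)
  have h1 := h n t
  have h2 : (n : ℝ) * x t ≤ y t := by
    have h3 : (n • x) t = (n : ℝ) * x t := by simp
    rw [← h3]
    exact h1
  rw [div_lt_iff₀ hcon'] at hn
  linarith

end Pool.Agent.Results.MP_f32e1d_an.NoPointwiseSup
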